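import Pool.Agent.Q125.SC3

/-!
# Q1: `vP_2 → vP_2^sc` is not injective

Diagrams are Gauss diagrams (`Pool.Agent.W612.WSL.Defs`). `VP n` is the set of monotone Gauss
diagrams on `n` strands modulo the generalized Reidemeister moves through monotone diagrams (the
virtual pure braids), `VSLsc n` the set of all Gauss diagrams on `n` strands modulo the generalized
Reidemeister moves and self-crossing changes (`vSL_n^sc`), and `piV n` the natural map between them,
whose image is `vP_n^sc`.

The element is the commutator of `A B` and `A⁻¹ B⁻¹`, where `A` and `B` are the positive crossings at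
which the first (the second) strand passes over the other one; `vP_2` is the free group on `A`, `B`.
The reason: let `1`, `2` be two passages of one strand and `3` a passage of the other strand. Up to
self-crossing changes a self-crossing `T` between `1` and `2` satisfies `T i₁₃ j₂₃ = j₂₃ i₁₃ T` for
all `i, j ∈ {A, B⁻¹}`. So `T (A B)₁₃ T⁻¹ = j₂₃ (A B)₁₃ j₂₃⁻¹` for both `j`, and `(A B)₁₃` commutes with
`(A⁻¹ B⁻¹)₂₃`. This exchanges the two blocks on the strand `3`; a second application with the
strands exchanged also exchanges them on the other strand.
-/

set_option autoImplicit false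

namespace Pool.Agent.Results.MP_dfcdcf_gt.VirtualKernel

open Pool.Agent.Q125.SC

/-- There is a virtual pure braid on two strands which is not trivial in `vP_2`, but is trivial in
`vSL_2^sc`; so `vP_2 → vP_2^sc` is not injective. -/
theorem result : (∃ β : VP 2, β ≠ oneVP 2 ∧ piV 2 β = oneVSL 2) ∧
    ¬ Function.Injective (piV 2) :=
  ⟨⟨_, m0_ne_vp, piV_m0⟩, fun h => m0_ne_vp (h piV_m0)⟩

end Pool.Agent.Results.MP_dfcdcf_gt.VirtualKernel
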