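import Pool.Agent.Q125.SC3

/-!
# Q2: `wP_2 → wP_2^sc` is not injective

`WP n` is the set of monotone Gauss diagrams on `n` strands modulo the generalized Reidemeister moves
and Overcrossings Commute through monotone diagrams (the welded pure braids), `WSLsc n` the set of
all Gauss diagrams on `n` strands modulo the generalized Reidemeister moves, Overcrossings Commute
and self-crossing changes (`wSL_n^sc`), and `piW n` the natural map, whose image is `wP_n^sc`.
The element is the commutator of `A B` and `A⁻¹ B⁻¹` as in `VirtualKernel`.
-/

set_option autoImplicit false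

namespace Pool.Agent.Results.MP_dfcdcf_gt.WeldedKernel

open Pool.Agent.Q125.SC

/-- There is a welded pure braid on two strands which is not trivial in `wP_2`, but is trivial in
`wSL_2^sc`; so `wP_2 → wP_2^sc` is not injective. -/
theorem result : (∃ β : WP 2, β ≠ oneWP 2 ∧ piW 2 β = oneWSL 2) ∧
    ¬ Function.Injective (piW 2) :=
  ⟨⟨_, m0_ne_wp, piW_m0⟩, fun h => m0_ne_wp (h piW_m0)⟩

end Pool.Agent.Results.MP_dfcdcf_gt.WeldedKernel
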